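import Pool.Agent.Helper63.Sey3.Goals

/-!
# Project SEY3: deterministic insertion of the vertices without main colour
-/

set_option autoImplicit false

namespace Pool.Agent.Helper32.Sey3

open Pool.Agent.Helper63.Sey3

/-- `x` and `y` are not neighbouring numbers and not equal -/
def Far (x y : ℕ) : Prop := x ≠ y ∧ x + 1 ≠ y ∧ x ≠ y + 1

/-- `x` and `y` are not neighbouring classes and not equal -/
def Sep {N : ℕ} (x y : ZMod N) : Prop := x ≠ y ∧ y ≠ x + 1 ∧ x ≠ y + 1

theorem Sep.symm {N : ℕ} {x y : ZMod N} (h : Sep x y) : Sep y x := ⟨h.1.symm, h.2.2, h.2.1⟩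

theorem Far.symm {x y : ℕ} (h : Far x y) : Far y x := by
  unfold Far at *
  omega

theorem sep_inner {V : Type} (P : Sy V) {l l' a x : ℕ} (hl : l < P.K) (hl' : l' < P.K)
    (h1 : 1 ≤ a) (h2 : a + 2 ≤ P.qm) (hx : x < P.qm) (h : l = l' → Far x a) :
    Sep (P.cl l a) (P.cl l' x) := by
  unfold Far at h
  refine ⟨?_, ?_, ?_⟩
  · intro he
    obtain ⟨e1, e2⟩ := P.cl_inj hl hl' (by omega) hx he
    exact (h e1).1 e2.symm
  · intro he
    rw [P.cl_succ] at he
    obtain ⟨e1, e2⟩ := P.cl_inj hl' hl hx (by omega) he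
    exact (h e1.symm).2.2 e2
  · intro he
    have h3 : P.cl l' x = P.cl l (a - 1) := by
      have h4 := P.cl_sub l a 1 h1
      rw [Nat.cast_one] at h4
      rw [← h4, he]
      ring
    obtain ⟨e1, e2⟩ := P.cl_inj hl' hl hx (by omega) h3
    exact (h e1.symm).2.1 (by omega)

theorem goalGRE (hPROP : GoalPROP) : GoalGRE := by
  classical
  intro V _ P R ω hF
  obtain ⟨Ir, hIr⟩ : ∃ Ir : V → Prop, Ir = fun v => ∃ a j, P.Ins ω v a j := ⟨_, rfl⟩
  obtain ⟨W, hW⟩ : ∃ W : V → Prop, W = fun v => P.Ms ω v ∧ ¬ Ir v := ⟨_, rfl⟩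
  have hIns : ∀ v, Ir v → P.Ms ω v ∧ P.Tm ω v (P.cl (P.part v) (P.pc (ω v))) ∧
      ∀ u, P.H.Adj v u → P.cl (P.part u) (P.pc (ω u)) ≠ P.cl (P.part v) (P.pc (ω v)) - 1 ∧
        P.cl (P.part u) (P.pc (ω u)) ≠ P.cl (P.part v) (P.pc (ω v)) ∧
        P.cl (P.part u) (P.pc (ω u)) ≠ P.cl (P.part v) (P.pc (ω v)) + 1 := by
    intro v hv
    rw [hIr] at hv
    obtain ⟨a, j, h1, h2, h3, h4, h5⟩ := hv
    rw [h2]
    exact ⟨h1, h4, h5⟩
  -- the colours
  have key : ∀ n : ℕ, ∃ A : V → ℕ, (∀ u, ¬ W u → A u = P.pc (ω u)) ∧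
      ∀ w, W w → P.idx w < n → P.Fa ω w (A w) ∧
        ∀ u, P.Own w u → P.Ms ω u → (W u → P.idx u < P.idx w) → Far (A u) (A w) := by
    intro n
    induction n with
    | zero => exact ⟨fun u => P.pc (ω u), fun u _ => rfl, fun w _ h => absurd h (Nat.not_lt_zero _)⟩
    | succ n ih =>
      obtain ⟨A, hA1, hA2⟩ := ih
      by_cases hex : ∃ w, W w ∧ P.idx w = n
      · obtain ⟨w, hw, hwn⟩ := hex
        -- choose a value
        obtain ⟨S, hS⟩ : ∃ S : Finset V, S = Finset.univ.filter fun u => P.Own w u ∧ P.Ms ω u :=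
          ⟨_, rfl⟩
        obtain ⟨F, hFd⟩ : ∃ F : Finset ℕ, F = (Finset.range P.qm).filter fun a => P.Fa ω w a :=
          ⟨_, rfl⟩
        have hSc : Nat.card {u // P.Own w u ∧ P.Ms ω u} = S.card :=
          Nat.subtype_card S (by intro x; rw [hS]; simp)
        have hFc : Nat.card {a : ℕ // P.Fa ω w a} = F.card := by
          refine Nat.subtype_card F ?_
          intro x
          rw [hFd, Finset.mem_filter, Finset.mem_range]
          constructor
          · exact fun h => h.2
          · intro h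
            have := h.2.1
            exact ⟨by omega, h⟩
        have hEc : (S.biUnion fun u => ({A u, A u + 1, A u - 1} : Finset ℕ)).card ≤ S.card * 3 :=
          Finset.card_biUnion_le_card_mul _ _ _ fun _ _ => Finset.card_le_three
        have hlt : (S.biUnion fun u => ({A u, A u + 1, A u - 1} : Finset ℕ)).card < F.card := by
          have := hF w
          rw [hSc, hFc] at this
          omega
        obtain ⟨x, hxF, hxE⟩ := Finset.exists_mem_notMem_of_card_lt_card hlt
        rw [hFd, Finset.mem_filter] at hxF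
        refine ⟨Function.update A w x, ?_, ?_⟩
        · intro u hu
          have hne : u ≠ w := fun h => hu (by rw [h]; exact hw)
          rw [Function.update_of_ne hne]
          exact hA1 u hu
        · intro w' hw' hlt'
          by_cases hww : w' = w
          · rw [hww]
            rw [Function.update_self]
            refine ⟨hxF.2, ?_⟩
            intro u hu hms _
            have hne : u ≠ w := (P.own_ne hu).symm
            rw [Function.update_of_ne hne]
            have huS : u ∈ S := by rw [hS, Finset.mem_filter]; exact ⟨Finset.mem_univ _, hu, hms⟩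
            have hx' : x ∉ ({A u, A u + 1, A u - 1} : Finset ℕ) := fun h =>
              hxE (Finset.mem_biUnion.2 ⟨u, huS, h⟩)
            rw [Finset.mem_insert, Finset.mem_insert, Finset.mem_singleton] at hx'
            unfold Far
            omega
          · have hidx : P.idx w' ≠ n := fun h => hww (P.hidx (by rw [h, hwn]))
            obtain ⟨b1, b2⟩ := hA2 w' hw' (by omega)
            rw [Function.update_of_ne hww]
            refine ⟨b1, ?_⟩
            intro u hu hms hlt2
            have hne : u ≠ w := by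
              intro h
              have := hlt2 (by rw [h]; exact hw)
              rw [h, hwn] at this
              omega
            rw [Function.update_of_ne hne]
            exact b2 u hu hms hlt2
      · refine ⟨A, hA1, ?_⟩
        intro w hw hlt
        have hne : P.idx w ≠ n := fun h => hex ⟨w, hw, h⟩
        exact hA2 w hw (by omega)
  obtain ⟨A, hA1, hA2'⟩ := key (Finset.univ.sup P.idx + 1)
  have hA2 : ∀ w, W w → P.Fa ω w (A w) ∧
      ∀ u, P.Own w u → P.Ms ω u → (W u → P.idx u < P.idx w) → Far (A u) (A w) := fun w hw =>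
    hA2' w hw (Nat.lt_succ_of_le (Finset.le_sup (f := P.idx) (Finset.mem_univ w)))
  obtain ⟨C, hC⟩ : ∃ C : V → ZMod P.N, C = fun v =>
    if h : ∃ g, P.isC ω v g then h.choose else P.cl (P.part v) (A v) := ⟨_, rfl⟩
  obtain ⟨τ, hτ⟩ : ∃ τ : V → ℕ, τ = fun v =>
    if h : ∃ j, j < P.J ∧ P.T R ω j v then h.choose
    else if Ir v then P.pt (ω v) else P.J := ⟨_, rfl⟩
  have hCm : ∀ v g, P.isC ω v g → C v = g := by
    intro v g hg
    have hex : ∃ g, P.isC ω v g := ⟨g, hg⟩
    have h1 : C v = hex.choose := by rw [hC]; exact dif_pos hex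
    rw [h1]
    exact P.isC_uniq hex.choose_spec hg
  have hCs : ∀ v, P.Ms ω v → C v = P.cl (P.part v) (A v) := by
    intro v hv
    have hex : ¬ ∃ g, P.isC ω v g := fun h => (P.not_Ms_iff ω v).2 h hv
    rw [hC]
    exact dif_neg hex
  have hτT : ∀ v j, j < P.J → P.T R ω j v → τ v = j := by
    intro v j hj hT
    have hex : ∃ j, j < P.J ∧ P.T R ω j v := ⟨j, hj, hT⟩
    have h1 : τ v = hex.choose := by rw [hτ]; exact dif_pos hex
    rw [h1]
    exact P.T_unique R ω hex.choose_spec.2 hT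
  have hτI : ∀ v, Ir v → τ v = P.pt (ω v) := by
    intro v hv
    have hex : ¬ ∃ j, j < P.J ∧ P.T R ω j v := by
      rintro ⟨j, _, hT⟩
      obtain ⟨g, hg⟩ := P.T_isC R ω j v hT
      exact P.isC_not_Ms hg (hIns v hv).1
    rw [hτ]
    show (if h : ∃ j, j < P.J ∧ P.T R ω j v then h.choose
      else if Ir v then P.pt (ω v) else P.J) = _
    rw [dif_neg hex, if_pos hv]
  have hτle : ∀ v, τ v ≤ P.J := by
    intro v
    by_cases hex : ∃ j, j < P.J ∧ P.T R ω j v
    · obtain ⟨j, hj, hT⟩ := hex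
      rw [hτT v j hj hT]
      exact hj.le
    · by_cases hI : Ir v
      · rw [hτI v hI]
        exact (P.pt_lt _).le
      · rw [hτ]
        show (if h : ∃ j, j < P.J ∧ P.T R ω j v then h.choose
          else if Ir v then P.pt (ω v) else P.J) ≤ _
        rw [dif_neg hex, if_neg hI]
  have hτJ : ∀ v, (¬ ∃ j, j < P.J ∧ P.T R ω j v) → ¬ Ir v → τ v = P.J := by
    intro v hex hI
    rw [hτ]
    show (if h : ∃ j, j < P.J ∧ P.T R ω j v then h.choose
      else if Ir v then P.pt (ω v) else P.J) = _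
    rw [dif_neg hex, if_neg hI]
  have hWI : ∀ v, P.Ms ω v → Ir v ∨ W v := by
    intro v hv
    by_cases hI : Ir v
    · exact Or.inl hI
    · exact Or.inr (by rw [hW]; exact ⟨hv, hI⟩)
  have hWMs : ∀ v, W v → P.Ms ω v := by
    intro v hv
    rw [hW] at hv
    exact hv.1
  have hIW : ∀ v, Ir v → ¬ W v := by
    intro v hv hw
    rw [hW] at hw
    exact hw.2 hv
  have hAlt : ∀ v, P.Ms ω v → A v < P.qm := by
    intro v hv
    rcases hWI v hv with h | h
    · rw [hA1 v (hIW v h)]
      exact P.pc_lt _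
    · have := (hA2 v h).1.2.1
      omega
  -- Claim A
  have hclA : ∀ u v, Ir u → P.H.Adj u v → Sep (C u) (C v) := by
    intro u v hu huv
    obtain ⟨hms, hTm, hlast⟩ := hIns u hu
    have hCu : C u = P.cl (P.part u) (P.pc (ω u)) := by rw [hCs u hms, hA1 u (hIW u hu)]
    by_cases hv : P.Ms ω v
    · rcases hWI v hv with hIv | hWv
      · obtain ⟨b1, b2, b3⟩ := hlast v huv
        rw [hCu, hCs v hv, hA1 v (hIW v hIv)]
        refine ⟨b2.symm, b3, ?_⟩
        intro h
        exact b1 (by rw [h]; ring)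
      · obtain ⟨c1, c2⟩ := hA2 v hWv
        rw [hCs u hms, hCs v hv]
        refine (sep_inner P (P.part_lt v) (P.part_lt u) c1.1 c1.2.1 (hAlt u hms) ?_).symm
        intro hp
        exact c2 u ⟨huv.symm, hp.symm⟩ hms fun h => absurd h (hIW u hu)
    · obtain ⟨g, hg⟩ := (P.not_Ms_iff ω v).1 hv
      obtain ⟨b1, b2, b3⟩ := hTm v huv
      rw [hCm v g hg, hCu]
      refine ⟨fun h => b2 (by rw [h]; exact hg), fun h => b3 (by rw [← h]; exact hg),
        fun h => b1 ?_⟩
      rw [h, add_sub_cancel_right]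
      exact hg
  -- Claim B
  have hclB : ∀ u v, W u → P.H.Adj u v → Sep (C u) (C v) := by
    intro u v hu huv
    obtain ⟨c1, c2⟩ := hA2 u hu
    have hmu := hWMs u hu
    by_cases hv : P.Ms ω v
    · rcases hWI v hv with hIv | hWv
      · exact (hclA v u hIv huv.symm).symm
      · rw [hCs u hmu, hCs v hv]
        refine sep_inner P (P.part_lt u) (P.part_lt v) c1.1 c1.2.1 (hAlt v hv) ?_
        intro hp
        rcases lt_trichotomy (P.idx u) (P.idx v) with h | h | h
        · exact ((hA2 v hWv).2 u ⟨huv.symm, hp⟩ hmu fun _ => h).symm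
        · exact absurd (P.hidx h) huv.ne
        · exact c2 v ⟨huv, hp.symm⟩ hv fun _ => h
    · obtain ⟨g, hg⟩ := (P.not_Ms_iff ω v).1 hv
      rw [hCm v g hg, hCs u hmu]
      obtain ⟨x, hx1, hx2, hx3⟩ := hg
      rw [← hx3]
      refine sep_inner P (P.part_lt u) (P.part_lt v) c1.1 c1.2.1 hx2 ?_
      intro hp
      obtain ⟨d1, d2, d3⟩ := c1.2.2 v ⟨huv, hp.symm⟩ x hx1
      exact ⟨d2, d1, d3⟩
  have hcl : ∀ u v, P.Ms ω u → P.H.Adj u v → Sep (C u) (C v) := by
    intro u v hu huv
    rcases hWI u hu with h | h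
    · exact hclA u v h huv
    · exact hclB u v h huv
  refine ⟨C, τ, hτle, ?_, ?_, ?_, ?_⟩
  · intro u v huv he
    by_cases hu : P.Ms ω u
    · exact (hcl u v hu huv).1 he
    · by_cases hv : P.Ms ω v
      · exact (hcl v u hv huv.symm).1 he.symm
      · obtain ⟨g, hg⟩ := (P.not_Ms_iff ω u).1 hu
        obtain ⟨g', hg'⟩ := (P.not_Ms_iff ω v).1 hv
        rw [hCm u g hg, hCm v g' hg'] at he
        obtain ⟨x, hx1, hx2, hx3⟩ := hg
        obtain ⟨y, hy1, hy2, hy3⟩ := hg'
        obtain ⟨e1, e2⟩ := P.cl_inj (P.part_lt u) (P.part_lt v) hx2 hy2 (by rw [hx3, hy3, he])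
        have e3 : x = y := Fin.ext e2
        exact hPROP V P ω u v x ⟨huv, e1.symm⟩ hx1 (by rw [e3]; exact hy1)
  · intro u v huv he
    have hu : ¬ P.Ms ω u := fun h => (hcl u v h huv).2.1 he
    have hv : ¬ P.Ms ω v := fun h => (hcl v u h huv.symm).2.2 he
    obtain ⟨g, hg⟩ := (P.not_Ms_iff ω u).1 hu
    obtain ⟨g', hg'⟩ := (P.not_Ms_iff ω v).1 hv
    rw [hCm u g hg, hCm v g' hg'] at he
    by_cases hex : ∃ j, j < P.J ∧ P.T R ω j u
    · obtain ⟨j, hj, hT⟩ := hex
      rw [hτT u j hj hT]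
      obtain ⟨i, hi, hTi⟩ := P.T_arc R ω huv hg' (by rw [he, add_sub_cancel_right]; exact hg) hT
      by_cases hiJ : i < P.J
      · rw [hτT v i hiJ hTi]
        exact hi
      · have := hτle v
        omega
    · rw [hτJ u hex fun h => hu (hIns u h).1]
      have := hτle v
      omega
  · intro v g j hj hT hg
    exact ⟨hCm v g hg, hτT v j hj hT⟩
  · intro v a j h
    have hI : Ir v := by rw [hIr]; exact ⟨a, j, h⟩
    rw [hCs v h.1, hA1 v (hIW v hI), hτI v hI]
    exact ⟨by rw [h.2.1], h.2.2.1⟩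

end Pool.Agent.Helper32.Sey3
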