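import Pool.Agent.Helper63.Sey3.Goals

/-!
# Project SEY3: locality with respect to parts
-/

set_option autoImplicit false

namespace Pool.Agent.Helper32.Sey3

open Pool.Agent.Helper63.Sey3
open Pool.Agent.Helper8.Sey (near NearBd near_symm near_three)

variable {V : Type} (P : Sy V)

/-- the colouring of a part depends only on the labels of the part -/
theorem st_congr (ω ω' : P.Om) (m : ℕ) (h : ∀ w, P.part w = m → ω w = ω' w) (i : ℕ) :
    ∀ w, P.part w = m → P.st ω i w = P.st ω' i w := by
  induction i with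
  | zero =>
    intro w hw
    rw [Sy.st_zero, Sy.st_zero]
    unfold Sy.c0
    rw [h w hw]
    have e : (∀ y, P.Own w y → ¬ (P.al (ω y) ∧ P.co (ω y) = P.co (ω' w))) ↔
        (∀ y, P.Own w y → ¬ (P.al (ω' y) ∧ P.co (ω' y) = P.co (ω' w))) := by
      constructor
      · intro h1 y hy
        rw [← h y (hy.2.trans hw)]
        exact h1 y hy
      · intro h1 y hy
        rw [h y (hy.2.trans hw)]
        exact h1 y hy
    rw [propext e]
  | succ i ih =>
    intro w hw
    rw [Sy.st_succ, Sy.st_succ]
    generalize P.st ω i = c at ih ⊢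
    generalize P.st ω' i = c' at ih ⊢
    have hused : ∀ u, P.part u = m → P.used c u = P.used c' u := by
      intro u hu
      funext a
      apply propext
      constructor
      · rintro ⟨y, h1, h2⟩
        exact ⟨y, h1, by rw [← ih y (h1.2.trans hu)]; exact h2⟩
      · rintro ⟨y, h1, h2⟩
        exact ⟨y, h1, by rw [ih y (h1.2.trans hu)]; exact h2⟩
    have hpk : ∀ u, P.part u = m → P.pk ω c u = P.pk ω' c' u := by
      intro u hu
      unfold Sy.pk
      rw [h u hu, hused u hu]
    unfold Sy.stp
    rw [ih w hw, h w hw, hused w hw, hpk w hw]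
    have e : (∀ y, P.Own w y → P.idx y < P.idx w → c y = none → P.rd (ω y) = i →
        P.pk ω c y ≠ P.pk ω' c' w) ↔
        (∀ y, P.Own w y → P.idx y < P.idx w → c' y = none → P.rd (ω' y) = i →
        P.pk ω' c' y ≠ P.pk ω' c' w) := by
      constructor
      · intro h1 y hy
        rw [← ih y (hy.2.trans hw), ← h y (hy.2.trans hw), ← hpk y (hy.2.trans hw)]
        exact h1 y hy
      · intro h1 y hy
        rw [ih y (hy.2.trans hw), h y (hy.2.trans hw), hpk y (hy.2.trans hw)]
        exact h1 y hy
    rw [propext e]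

/-- classes close to the class `cl l a` lie in near parts -/
theorem near_of_sub {l a m x t : ℕ} (hl : l < P.K) (ha : a < P.qm) (hm : m < P.K)
    (hx : x < P.qm) (ht : t ≤ P.qm) (h : P.cl m x = P.cl l a - (t : ZMod P.N)) :
    near P.K l m := by
  obtain ⟨l', hl', a', ha', h1, h2⟩ := P.sub_part hl ha t ht
  have h3 := (P.cl_inj hm hl' hx ha' (by rw [h, h1])).1
  unfold near
  omega

theorem near_of_add {l a m x : ℕ} (hl : l < P.K) (ha : a < P.qm) (hm : m < P.K)
    (hx : x < P.qm) (h : P.cl m x = P.cl l a + 1) : near P.K l m := by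
  obtain ⟨l', hl', a', ha', h1, h2⟩ := P.add_part hl ha
  have h3 := (P.cl_inj hm hl' hx ha' (by rw [h, h1])).1
  unfold near
  omega

theorem goalLOCP : GoalLOCP := by
  intro V _ P R l ω ω' hl hω v hv
  have hcol : ∀ w, near P.K l (P.part w) → P.col ω w = P.col ω' w := by
    intro w hw
    exact st_congr P ω ω' (P.part w) (fun w' hw' => hω w' (by rw [hw']; exact hw)) P.Z w rfl
  have hisC : ∀ w, near P.K l (P.part w) → ∀ g, P.isC ω w g ↔ P.isC ω' w g := by
    intro w hw g
    unfold Sy.isC
    rw [hcol w hw]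
  have hnv : near P.K l (P.part v) := by rw [hv]; exact P.near_self l
  -- vertices in classes of the window are near
  have hsub : ∀ (w : V) (ω1 : P.Om) (a t : ℕ), a < P.qm → t ≤ P.qm →
      P.isC ω1 w (P.cl l a - (t : ZMod P.N)) → near P.K l (P.part w) := by
    rintro w ω1 a t ha ht ⟨x, h1, h2, h3⟩
    exact near_of_sub P hl ha (P.part_lt w) h2 ht h3
  have hadd : ∀ (w : V) (ω1 : P.Om) (a : ℕ), a < P.qm →
      P.isC ω1 w (P.cl l a + 1) → near P.K l (P.part w) := by
    rintro w ω1 a ha ⟨x, h1, h2, h3⟩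
    exact near_of_add P hl ha (P.part_lt w) h2 h3
  refine ⟨fun g h => (hisC v hnv g).1 h, ?_, ?_⟩
  · -- the process
    have key : ∀ (a : ℕ), a < P.qm → ∀ j t : ℕ, t + j ≤ P.qm → ∀ w,
        P.isC ω w (P.cl l a - (t : ZMod P.N)) →
        (P.U R ω j w ↔ P.U R ω' j w) ∧ (P.T R ω j w ↔ P.T R ω' j w) := by
      intro a ha j
      induction j with
      | zero =>
        intro t ht w hw
        have hn := hsub w ω a t ha (by omega) hw
        have hw' := (hisC w hn _).1 hw
        refine ⟨Iff.rfl, ?_⟩
        rw [P.T_iff' R ω 0 hw, P.T_iff' R ω' 0 hw', hω w hn]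
        exact Iff.rfl
      | succ j ih =>
        intro t ht w hw
        have hn := hsub w ω a t ha (by omega) hw
        have hw' := (hisC w hn _).1 hw
        obtain ⟨i1, i2⟩ := ih t (by omega) w hw
        have hU : P.U R ω (j + 1) w ↔ P.U R ω' (j + 1) w := by
          rw [P.U_succ, P.U_succ, i1, i2]
        have hcast : P.cl l a - (t : ZMod P.N) - 1 = P.cl l a - ((t + 1 : ℕ) : ZMod P.N) := by
          push_cast
          ring
        have hFo : P.Fo R ω (j + 1) w (P.cl l a - (t : ZMod P.N)) ↔
            P.Fo R ω' (j + 1) w (P.cl l a - (t : ZMod P.N)) := by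
          constructor
          · rintro ⟨u, hu1, hu2, hu3⟩
            rw [hcast] at hu2
            have hnu := hsub u ω a (t + 1) ha (by omega) hu2
            refine ⟨u, hu1, ?_, ((ih (t + 1) (by omega) u hu2).2).1 hu3⟩
            rw [hcast]
            exact (hisC u hnu _).1 hu2
          · rintro ⟨u, hu1, hu2, hu3⟩
            rw [hcast] at hu2
            have hnu := hsub u ω' a (t + 1) ha (by omega) hu2
            have hu2' := (hisC u hnu _).2 hu2
            refine ⟨u, hu1, ?_, ((ih (t + 1) (by omega) u hu2').2).2 hu3⟩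
            rw [hcast]
            exact hu2'
        refine ⟨hU, ?_⟩
        rw [P.T_iff' R ω _ hw, P.T_iff' R ω' _ hw', hU, hFo, hω w hn]
    intro j hj hT
    obtain ⟨g, hg⟩ := P.T_isC R ω j v hT
    have hg' := hg
    obtain ⟨x, h1, h2, h3⟩ := hg'
    rw [hv] at h3
    have hJ := P.J_lt_qm
    have hg0 : P.isC ω v (P.cl l x - ((0 : ℕ) : ZMod P.N)) := by
      rw [Nat.cast_zero, sub_zero, h3]
      exact hg
    exact (key x h2 j 0 (by omega) v hg0).2.1 hT
  · -- the insertion
    rintro a j ⟨h1, h2, h3, h4, h5⟩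
    have ha : a < P.qm := by rw [← h2]; exact P.pc_lt _
    have hqm := P.qm_pos
    rw [hv] at h4 h5
    refine ⟨?_, ?_, ?_, ?_, ?_⟩
    · intro b hb
      rw [← hcol v hnv] at hb
      exact h1 b hb
    · rw [← hω v hnv]; exact h2
    · rw [← hω v hnv]; exact h3
    · rw [hv]
      intro u hu
      obtain ⟨b1, b2, b3⟩ := h4 u hu
      refine ⟨fun hc => b1 ?_, fun hc => b2 ?_, fun hc => b3 ?_⟩
      · have hn := hsub u ω' a 1 ha (by omega) (by rw [Nat.cast_one]; exact hc)
        exact (hisC u hn _).2 hc
      · have hn := hsub u ω' a 0 ha (by omega) (by rw [Nat.cast_zero, sub_zero]; exact hc)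
        exact (hisC u hn _).2 hc
      · have hn := hadd u ω' a ha hc
        exact (hisC u hn _).2 hc
    · rw [hv]
      intro u hu
      obtain ⟨b1, b2, b3⟩ := h5 u hu
      refine ⟨fun hc => b1 ?_, fun hc => b2 ?_, fun hc => b3 ?_⟩
      · have hn : near P.K l (P.part u) := near_of_sub P hl ha (P.part_lt u) (P.pc_lt (ω' u))
          (t := 1) (by omega) (by rw [Nat.cast_one]; exact hc)
        rw [hω u hn]
        exact hc
      · have hn : near P.K l (P.part u) := near_of_sub P hl ha (P.part_lt u) (P.pc_lt (ω' u))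
          (t := 0) (by omega) (by rw [Nat.cast_zero, sub_zero]; exact hc)
        rw [hω u hn]
        exact hc
      · have hn : near P.K l (P.part u) := near_of_add P hl ha (P.part_lt u) (P.pc_lt (ω' u)) hc
        rw [hω u hn]
        exact hc

end Pool.Agent.Helper32.Sey3
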