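import Pool.Agent.Helper63.Sey3.Goals

/-!
# Project SEY3: many colours are not hit
-/

set_option autoImplicit false

namespace Pool.Agent.Helper32.Sey3

open Pool.Agent.Helper63.Sey3
open Pool.Agent.Helper41.Girth4 (Pr Pr_eq_sum)

theorem sum_update {I L : Type} [Fintype I] [Fintype L] [DecidableEq I] (i : I)
    (f : (I → L) → ℝ) :
    ∑ ω : I → L, ∑ l : L, f (Function.update ω i l) = Fintype.card L * ∑ ω, f ω := by
  obtain ⟨e, he⟩ : ∃ e : ((I → L) × L) ≃ ((I → L) × L),
      ∀ p, e p = (Function.update p.1 i p.2, p.1 i) := by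
    refine ⟨⟨fun p => (Function.update p.1 i p.2, p.1 i),
      fun p => (Function.update p.1 i p.2, p.1 i), ?_, ?_⟩, fun p => rfl⟩
    · rintro ⟨ω, l⟩
      simp
    · rintro ⟨ω, l⟩
      simp
  calc ∑ ω : I → L, ∑ l : L, f (Function.update ω i l)
      = ∑ p : (I → L) × L, f (Function.update p.1 i p.2) :=
        (Fintype.sum_prod_type (fun p : (I → L) × L => f (Function.update p.1 i p.2))).symm
    _ = ∑ p : (I → L) × L, (fun p => f p.1) (e p) := by
        refine Finset.sum_congr rfl fun p _ => ?_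
        rw [he]
    _ = ∑ p : (I → L) × L, f p.1 := Equiv.sum_comp e (fun p => f p.1)
    _ = ∑ ω : I → L, ∑ _l : L, f ω := Fintype.sum_prod_type (fun p : (I → L) × L => f p.1)
    _ = Fintype.card L * ∑ ω, f ω := by
        rw [Finset.mul_sum]
        refine Finset.sum_congr rfl fun ω _ => ?_
        rw [Finset.sum_const, nsmul_eq_mul, Finset.card_univ]

theorem stepG {L Col : Type} [Fintype L] [DecidableEq Col] (χ : L → Option Col)
    (q : Col → Prop) [DecidablePred q] (z : Col → ℝ) (ρ : ℝ) (hρ0 : 0 ≤ ρ)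
    (hz : ∀ a, 0 ≤ z a ∧ z a ≤ 1) (C : Finset Col)
    (hρ : ∀ a ∈ C, (∑ l, if χ l = some a then (1 : ℝ) else 0) = ρ * Fintype.card L) :
    ∑ l, ∏ a ∈ C, (if q a ∧ χ l = some a then (1 : ℝ) else z a) ≤
      Fintype.card L * ∏ a ∈ C, (if q a then z a + ρ * (1 - z a) else z a) := by
  induction C using Finset.induction_on with
  | empty => simp
  | insert c C' hc ih =>
    have ih' := ih (fun a ha => hρ a (Finset.mem_insert_of_mem ha))
    have hρc := hρ c (Finset.mem_insert_self c C')
    obtain ⟨P, hP⟩ : ∃ P : L → ℝ, P = fun l => ∏ a ∈ C', (if q a ∧ χ l = some a then (1 : ℝ)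
      else z a) := ⟨_, rfl⟩
    obtain ⟨Zp, hZp⟩ : ∃ Zp : ℝ, Zp = ∏ a ∈ C', z a := ⟨_, rfl⟩
    obtain ⟨T, hT⟩ : ∃ T : ℝ, T = ∏ a ∈ C', (if q a then z a + ρ * (1 - z a) else z a) := ⟨_, rfl⟩
    have hPle : ∑ l, P l ≤ Fintype.card L * T := by rw [hP, hT]; exact ih'
    have hZP : ∀ l, Zp ≤ P l := by
      intro l
      rw [hZp, hP]
      refine Finset.prod_le_prod (fun a _ => (hz a).1) fun a _ => ?_
      split_ifs
      · exact (hz a).2
      · exact le_refl _
    have hsumZ : Fintype.card L * Zp ≤ ∑ l, P l := by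
      have : ∑ _l : L, Zp ≤ ∑ l, P l := Finset.sum_le_sum fun l _ => hZP l
      rwa [Finset.sum_const, nsmul_eq_mul, Finset.card_univ] at this
    obtain ⟨h0, h1⟩ := hz c
    rw [Finset.prod_insert hc, ← hT]
    have hLHS : ∑ l, ∏ a ∈ insert c C', (if q a ∧ χ l = some a then (1 : ℝ) else z a) =
        ∑ l, (if q c ∧ χ l = some c then (1 : ℝ) else z c) * P l := by
      refine Finset.sum_congr rfl fun l _ => ?_
      rw [Finset.prod_insert hc, hP]
    rw [hLHS]
    by_cases hq : q c
    · have e : ∀ l, (if q c ∧ χ l = some c then (1 : ℝ) else z c) * P l =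
          z c * P l + ((1 - z c) * Zp) * (if χ l = some c then (1 : ℝ) else 0) := by
        intro l
        by_cases hl : χ l = some c
        · have hPl : P l = Zp := by
            rw [hP, hZp]
            refine Finset.prod_congr rfl fun a ha => ?_
            have hne : ¬ (q a ∧ χ l = some a) := by
              rintro ⟨_, h2⟩
              rw [hl] at h2
              exact hc (by rw [Option.some.inj h2]; exact ha)
            rw [if_neg hne]
          rw [if_pos ⟨hq, hl⟩, if_pos hl, hPl]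
          ring
        · rw [if_neg (fun h => hl h.2), if_neg hl]
          ring
      rw [Finset.sum_congr rfl fun l _ => e l, Finset.sum_add_distrib, ← Finset.mul_sum,
        ← Finset.mul_sum, hρc, if_pos hq]
      have h3 : (1 - z c) * Zp * (ρ * Fintype.card L) ≤ (1 - z c) * ρ * ∑ l, P l := by
        have h4 : 0 ≤ (1 - z c) * ρ := mul_nonneg (by linarith) hρ0
        have := mul_le_mul_of_nonneg_left hsumZ h4
        linarith
      have h5 : 0 ≤ z c + ρ * (1 - z c) := by
        have : 0 ≤ ρ * (1 - z c) := mul_nonneg hρ0 (by linarith)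
        linarith
      calc z c * ∑ l, P l + (1 - z c) * Zp * (ρ * Fintype.card L)
          ≤ z c * ∑ l, P l + (1 - z c) * ρ * ∑ l, P l := by linarith
        _ = (z c + ρ * (1 - z c)) * ∑ l, P l := by ring
        _ ≤ (z c + ρ * (1 - z c)) * (Fintype.card L * T) := mul_le_mul_of_nonneg_left hPle h5
        _ = Fintype.card L * ((z c + ρ * (1 - z c)) * T) := by ring
    · have e : ∀ l, (if q c ∧ χ l = some c then (1 : ℝ) else z c) * P l = z c * P l := by
        intro l
        rw [if_neg (fun h => hq h.1)]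
      rw [Finset.sum_congr rfl fun l _ => e l, ← Finset.mul_sum, if_neg hq]
      calc z c * ∑ l, P l ≤ z c * (Fintype.card L * T) := mul_le_mul_of_nonneg_left hPle h0
        _ = Fintype.card L * (z c * T) := by ring

theorem negMain {I L Col : Type} [Fintype I] [Fintype L] [Nonempty L] [DecidableEq I]
    [DecidableEq Col] (χ : L → Option Col) (C : Finset Col) (X : Col → Finset I) (ρ : ℝ)
    (hρ0 : 0 ≤ ρ) (hρ1 : ρ ≤ 1)
    (hρ : ∀ a ∈ C, (∑ l, if χ l = some a then (1 : ℝ) else 0) = ρ * Fintype.card L)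
    (S : Finset I) : ∀ x : Col → ℝ, (∀ a, 0 ≤ x a ∧ x a ≤ 1) →
    ∑ ω : I → L, ∏ a ∈ C, (if ∃ i ∈ X a, i ∈ S ∧ χ (ω i) = some a then (1 : ℝ) else x a) ≤
      Fintype.card (I → L) * ∏ a ∈ C, (1 - (1 - ρ) ^ (X a ∩ S).card * (1 - x a)) := by
  induction S using Finset.induction_on with
  | empty =>
    intro x hx
    have e : ∀ ω : I → L, ∏ a ∈ C, (if ∃ i ∈ X a, i ∈ (∅ : Finset I) ∧ χ (ω i) = some a
        then (1 : ℝ) else x a) = ∏ a ∈ C, x a := by
      intro ω
      refine Finset.prod_congr rfl fun a _ => ?_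
      rw [if_neg]
      rintro ⟨i, _, h, _⟩
      exact Finset.notMem_empty i h
    rw [Finset.sum_congr rfl fun ω _ => e ω, Finset.sum_const, nsmul_eq_mul, Finset.card_univ]
    apply le_of_eq
    congr 1
    refine Finset.prod_congr rfl fun a _ => ?_
    rw [Finset.inter_empty, Finset.card_empty, pow_zero]
    ring
  | insert i S hi ih =>
    intro x hx
    obtain ⟨F, hF⟩ : ∃ F : (I → L) → ℝ, F = fun ω => ∏ a ∈ C, (if ∃ j ∈ X a, j ∈ insert i S ∧
      χ (ω j) = some a then (1 : ℝ) else x a) := ⟨_, rfl⟩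
    obtain ⟨z, hz⟩ : ∃ z : Col → ℝ, z = fun a => 1 - (1 - ρ) ^ (X a ∩ S).card * (1 - x a) :=
      ⟨_, rfl⟩
    have hz01 : ∀ a, 0 ≤ z a ∧ z a ≤ 1 := by
      intro a
      rw [hz]
      have h1 : 0 ≤ (1 - ρ) ^ (X a ∩ S).card := pow_nonneg (by linarith) _
      have h2 : (1 - ρ) ^ (X a ∩ S).card ≤ 1 := pow_le_one₀ (by linarith) (by linarith)
      have h3 := (hx a).1
      have h4 := (hx a).2
      constructor
      · have : (1 - ρ) ^ (X a ∩ S).card * (1 - x a) ≤ 1 * 1 :=
          mul_le_mul h2 (by linarith) (by linarith) (by norm_num)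
        linarith
      · have : 0 ≤ (1 - ρ) ^ (X a ∩ S).card * (1 - x a) := mul_nonneg h1 (by linarith)
        linarith
    have hcardL : (0 : ℝ) < Fintype.card L := by exact_mod_cast Fintype.card_pos
    have h1 := sum_update i F
    rw [Finset.sum_comm] at h1
    -- for a fixed value of the coordinate
    have h2 : ∀ l, ∑ ω : I → L, F (Function.update ω i l) ≤
        Fintype.card (I → L) * ∏ a ∈ C, (if i ∈ X a ∧ χ l = some a then (1 : ℝ) else z a) := by
      intro l
      have h3 := ih (fun a => if i ∈ X a ∧ χ l = some a then (1 : ℝ) else x a) (by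
        intro a
        split_ifs
        · norm_num
        · exact hx a)
      have e1 : ∀ ω : I → L, F (Function.update ω i l) = ∏ a ∈ C,
          (if ∃ j ∈ X a, j ∈ S ∧ χ (ω j) = some a then (1 : ℝ) else
            (if i ∈ X a ∧ χ l = some a then (1 : ℝ) else x a)) := by
        intro ω
        rw [hF]
        refine Finset.prod_congr rfl fun a _ => ?_
        have hiff : (∃ j ∈ X a, j ∈ insert i S ∧ χ (Function.update ω i l j) = some a) ↔
            ((∃ j ∈ X a, j ∈ S ∧ χ (ω j) = some a) ∨ (i ∈ X a ∧ χ l = some a)) := by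
          constructor
          · rintro ⟨j, hj1, hj2, hj3⟩
            by_cases hji : j = i
            · rw [hji] at hj1 hj3
              rw [Function.update_self] at hj3
              exact Or.inr ⟨hj1, hj3⟩
            · rw [Function.update_of_ne hji] at hj3
              rcases Finset.mem_insert.1 hj2 with h | h
              · exact absurd h hji
              · exact Or.inl ⟨j, hj1, h, hj3⟩
          · rintro (⟨j, hj1, hj2, hj3⟩ | ⟨hj1, hj2⟩)
            · have hji : j ≠ i := fun h => hi (by rw [← h]; exact hj2)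
              exact ⟨j, hj1, Finset.mem_insert_of_mem hj2, by rw [Function.update_of_ne hji]; exact hj3⟩
            · exact ⟨i, hj1, Finset.mem_insert_self i S, by rw [Function.update_self]; exact hj2⟩
        by_cases hA : ∃ j ∈ X a, j ∈ S ∧ χ (ω j) = some a
        · rw [if_pos (hiff.2 (Or.inl hA)), if_pos hA]
        · rw [if_neg hA]
          by_cases hB : i ∈ X a ∧ χ l = some a
          · rw [if_pos (hiff.2 (Or.inr hB)), if_pos hB]
          · rw [if_neg hB, if_neg (fun h => (hiff.1 h).elim hA hB)]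
      rw [Finset.sum_congr rfl fun ω _ => e1 ω]
      refine h3.trans (le_of_eq ?_)
      congr 1
      refine Finset.prod_congr rfl fun a _ => ?_
      rw [hz]
      by_cases hB : i ∈ X a ∧ χ l = some a
      · rw [if_pos hB, if_pos hB]
        ring
      · rw [if_neg hB, if_neg hB]
    have h4 : Fintype.card L * ∑ ω, F ω ≤ Fintype.card (I → L) *
        ∑ l, ∏ a ∈ C, (if i ∈ X a ∧ χ l = some a then (1 : ℝ) else z a) := by
      rw [← h1, Finset.mul_sum]
      exact Finset.sum_le_sum fun l _ => h2 l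
    have h5 := stepG χ (fun a => i ∈ X a) z ρ hρ0 hz01 C hρ
    have h6 : ∏ a ∈ C, (if i ∈ X a then z a + ρ * (1 - z a) else z a) =
        ∏ a ∈ C, (1 - (1 - ρ) ^ (X a ∩ insert i S).card * (1 - x a)) := by
      refine Finset.prod_congr rfl fun a _ => ?_
      by_cases hia : i ∈ X a
      · rw [if_pos hia, Finset.inter_insert_of_mem hia, Finset.card_insert_of_notMem (fun h =>
          hi (Finset.mem_inter.1 h).2), hz, pow_succ]
        ring
      · rw [if_neg hia, Finset.inter_insert_of_notMem hia, hz]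
    rw [h6] at h5
    have h7 : (Fintype.card L : ℝ) * ∑ ω, F ω ≤ Fintype.card L * (Fintype.card (I → L) *
        ∏ a ∈ C, (1 - (1 - ρ) ^ (X a ∩ insert i S).card * (1 - x a))) := by
      have := mul_le_mul_of_nonneg_left h5 (Nat.cast_nonneg (α := ℝ) (Fintype.card (I → L)))
      calc _ ≤ _ := h4
        _ ≤ _ := this
        _ = _ := by ring
    have h8 := le_of_mul_le_mul_left h7 hcardL
    rw [hF] at h8
    exact h8

theorem goalNEG : GoalNEG := by
  classical
  intro I L Col _ _ _ χ C X ρ m y hρ0 hρ1 hρ hm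
  have hcardL : (0 : ℝ) < Fintype.card L := by exact_mod_cast Fintype.card_pos
  have hcardO : (0 : ℝ) < Fintype.card (I → L) := by exact_mod_cast Fintype.card_pos
  have hρ' : ∀ a ∈ C, (∑ l, if χ l = some a then (1 : ℝ) else 0) = ρ * Fintype.card L := by
    intro a ha
    have h1 := hρ a ha
    rw [Pr_eq_sum, div_eq_iff hcardL.ne'] at h1
    exact h1
  have hmain := negMain χ C X ρ hρ0 hρ1 hρ' Finset.univ (fun _ => 1 / 2) (fun _ => by norm_num)
  rw [Pr_eq_sum, div_le_iff₀ hcardO]
  have h1 : ∀ ω : I → L, (if Nat.card {a // a ∈ C ∧ ∀ i ∈ X a, χ (ω i) ≠ some a} ≤ y then (1 : ℝ)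
      else 0) ≤ 2 ^ y * ∏ a ∈ C, (if ∃ i ∈ X a, i ∈ Finset.univ ∧ χ (ω i) = some a then (1 : ℝ)
        else 1 / 2) := by
    intro ω
    have hprod0 : 0 ≤ ∏ a ∈ C, (if ∃ i ∈ X a, i ∈ Finset.univ ∧ χ (ω i) = some a then (1 : ℝ)
        else 1 / 2) := by
      refine Finset.prod_nonneg fun a _ => ?_
      split_ifs <;> norm_num
    split_ifs with hy
    · have hcard : Nat.card {a // a ∈ C ∧ ∀ i ∈ X a, χ (ω i) ≠ some a} =
          (C.filter fun a => ¬ ∃ i ∈ X a, i ∈ Finset.univ ∧ χ (ω i) = some a).card := by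
        refine Nat.subtype_card _ ?_
        intro a
        rw [Finset.mem_filter]
        refine and_congr_right fun _ => ?_
        constructor
        · intro h i hi he
          exact h ⟨i, hi, Finset.mem_univ i, he⟩
        · rintro h ⟨i, hi, _, he⟩
          exact h i hi he
      have hp : ∏ a ∈ C, (if ∃ i ∈ X a, i ∈ Finset.univ ∧ χ (ω i) = some a then (1 : ℝ)
          else 1 / 2) = (1 / 2) ^ Nat.card {a // a ∈ C ∧ ∀ i ∈ X a, χ (ω i) ≠ some a} := by
        rw [hcard, Finset.prod_ite, Finset.prod_const, Finset.prod_const, one_pow, one_mul]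
      rw [hp]
      obtain ⟨k, hk⟩ : ∃ k, k = Nat.card {a // a ∈ C ∧ ∀ i ∈ X a, χ (ω i) ≠ some a} := ⟨_, rfl⟩
      rw [← hk] at hy ⊢
      have h2 : (1 / 2 : ℝ) ^ y ≤ (1 / 2) ^ k := pow_le_pow_of_le_one (by norm_num) (by norm_num) hy
      calc (1 : ℝ) = 2 ^ y * (1 / 2) ^ y := by rw [← mul_pow]; norm_num
        _ ≤ 2 ^ y * (1 / 2) ^ k := mul_le_mul_of_nonneg_left h2 (by positivity)
    · positivity
  have h2 : ∏ a ∈ C, (1 - (1 - ρ) ^ (X a ∩ Finset.univ).card * (1 - 1 / 2)) ≤
      (1 - (1 - ρ) ^ m / 2) ^ C.card := by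
    rw [← Finset.prod_const]
    refine Finset.prod_le_prod (fun a _ => ?_) fun a ha => ?_
    · have : (1 - ρ) ^ (X a ∩ Finset.univ).card ≤ 1 := pow_le_one₀ (by linarith) (by linarith)
      linarith
    · rw [Finset.inter_univ]
      have : (1 - ρ) ^ m ≤ (1 - ρ) ^ (X a).card :=
        pow_le_pow_of_le_one (by linarith) (by linarith) (hm a ha)
      linarith
  calc _ ≤ ∑ ω : I → L, 2 ^ y * ∏ a ∈ C, (if ∃ i ∈ X a, i ∈ Finset.univ ∧ χ (ω i) = some a
        then (1 : ℝ) else 1 / 2) := Finset.sum_le_sum fun ω _ => h1 ω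
    _ = 2 ^ y * ∑ ω : I → L, ∏ a ∈ C, (if ∃ i ∈ X a, i ∈ Finset.univ ∧ χ (ω i) = some a
        then (1 : ℝ) else 1 / 2) := by rw [Finset.mul_sum]
    _ ≤ 2 ^ y * (Fintype.card (I → L) * ∏ a ∈ C,
        (1 - (1 - ρ) ^ (X a ∩ Finset.univ).card * (1 - 1 / 2))) :=
        mul_le_mul_of_nonneg_left hmain (by positivity)
    _ ≤ 2 ^ y * (Fintype.card (I → L) * (1 - (1 - ρ) ^ m / 2) ^ C.card) := by
        gcongr
    _ = 2 ^ y * (1 - (1 - ρ) ^ m / 2) ^ C.card * Fintype.card (I → L) := by ring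

end Pool.Agent.Helper32.Sey3
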