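import Pool.Agent.Helper63.Sey3.Goals

/-!
# Project SEY3: the colouring is proper inside the parts
-/

set_option autoImplicit false

namespace Pool.Agent.Helper32.Sey3

open Pool.Agent.Helper63.Sey3

theorem goalPROP : GoalPROP := by
  intro V P ω u v a huv hu hv
  have key : ∀ i, ¬ (P.st ω i u = some a ∧ P.st ω i v = some a) := by
    intro i
    induction i with
    | zero =>
      rintro ⟨h1, h2⟩
      rw [Sy.st_zero] at h1 h2
      unfold Sy.c0 at h1 h2
      split_ifs at h1 h2 with h3 h4
      have e1 : P.co (ω u) = a := Option.some.inj h1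
      have e2 : P.co (ω v) = a := Option.some.inj h2
      exact h3.2 v huv ⟨h4.1, by rw [e1, e2]⟩
    | succ i ih =>
      rintro ⟨h1, h2⟩
      rw [Sy.st_succ] at h1 h2
      by_cases hcu : P.st ω i u = none
      · by_cases hcv : P.st ω i v = none
        · obtain ⟨a1, a2, a3, a4⟩ := P.stp_some ω hcu h1
          obtain ⟨b1, b2, b3, b4⟩ := P.stp_some ω hcv h2
          rcases lt_trichotomy (P.idx u) (P.idx v) with h | h | h
          · exact b4 u (P.own_symm huv) h hcu a1 a2
          · exact P.own_ne huv (P.hidx h)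
          · exact a4 v huv h hcv b1 b2
        · obtain ⟨a1, a2, a3, a4⟩ := P.stp_some ω hcu h1
          rw [P.stp_of_ne ω hcv] at h2
          exact a3 ⟨v, huv, h2⟩
      · rw [P.stp_of_ne ω hcu] at h1
        by_cases hcv : P.st ω i v = none
        · obtain ⟨b1, b2, b3, b4⟩ := P.stp_some ω hcv h2
          exact b3 ⟨u, P.own_symm huv, h1⟩
        · rw [P.stp_of_ne ω hcv] at h2
          exact ih ⟨h1, h2⟩
  exact key P.Z ⟨hu, hv⟩

end Pool.Agent.Helper32.Sey3
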