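import Pool.Agent.Helper63.Sey3.Goals

/-!
# Project SEY3: the block process looks only at a window of classes
-/

set_option autoImplicit false

namespace Pool.Agent.Helper32.Sey3

open Pool.Agent.Helper63.Sey3

theorem coin_congr {V : Type} (P : Sy V) {x y : P.Lab} (h : x.2.2 = y.2.2) (j : ℕ) :
    P.coin x j = P.coin y j := by
  unfold Sy.coin
  rw [h]

theorem goalWIN : GoalWIN := by
  intro V _ P R j
  induction j with
  | zero =>
    intro g ω ω' hA v hv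
    have hv' : P.isC ω' v g := ((hA v).1 g (P.self_mem_Win 0 g)).1 hv
    refine ⟨Iff.rfl, ?_⟩
    rw [P.T_iff' R ω 0 hv, P.T_iff' R ω' 0 hv', coin_congr P (hA v).2]
    exact Iff.rfl
  | succ j ih =>
    intro g ω ω' hA v hv
    have hv' : P.isC ω' v g := ((hA v).1 g (P.self_mem_Win _ g)).1 hv
    have hA1 : P.Agree (P.Win j g) ω ω' := fun w =>
      ⟨fun g' hg' => (hA w).1 g' (P.Win_mono (Nat.le_succ j) g hg'), (hA w).2⟩
    have hA2 : P.Agree (P.Win j (g - 1)) ω ω' := fun w =>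
      ⟨fun g' hg' => (hA w).1 g' (P.Win_pred j g hg'), (hA w).2⟩
    obtain ⟨i1, i2⟩ := ih g ω ω' hA1 v hv
    have hU : P.U R ω (j + 1) v ↔ P.U R ω' (j + 1) v := by
      rw [P.U_succ, P.U_succ, i1, i2]
    have hFo : P.Fo R ω (j + 1) v g ↔ P.Fo R ω' (j + 1) v g := by
      have hmem : g - 1 ∈ P.Win j (g - 1) := P.self_mem_Win j (g - 1)
      constructor
      · rintro ⟨u, hu1, hu2, hu3⟩
        exact ⟨u, hu1, ((hA2 u).1 _ hmem).1 hu2, (ih (g - 1) ω ω' hA2 u hu2).2.1 hu3⟩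
      · rintro ⟨u, hu1, hu2, hu3⟩
        have hu2' := ((hA2 u).1 _ hmem).2 hu2
        exact ⟨u, hu1, hu2', (ih (g - 1) ω ω' hA2 u hu2').2.2 hu3⟩
    refine ⟨hU, ?_⟩
    rw [P.T_iff' R ω _ hv, P.T_iff' R ω' _ hv', hU, hFo, coin_congr P (hA v).2]

end Pool.Agent.Helper32.Sey3
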